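import Pool.Agent.Helper83.SU.St

set_option autoImplicit false

/-! Project SU, module S1 (written by helper91). -/

namespace Pool.Agent.Helper91.SU
open Pool.Agent.Helper83.SU Pool.Agent.Helper83.CK Cardinal Set
universe u

theorem mS1 : StS1.{u} := by
  intro α _ _ k A hk hkA hA X hX hXk
  by_contra hcon
  push Not at hcon
  have hsub : A ⊆ ⋃ x ∈ X, (insert x (A ∩ Iio x) : Set α) := by
    intro a ha
    obtain ⟨x, hx, hax⟩ := hcon a ha
    refine mem_iUnion₂.2 ⟨x, hx, ?_⟩
    rcases hax.lt_or_eq with h | h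
    · exact mem_insert_of_mem _ ⟨ha, h⟩
    · rw [h]; exact mem_insert _ _
  have hlt : #(⋃ x ∈ X, (insert x (A ∩ Iio x) : Set α) : Set α) < k := by
    rw [card_biUnion_lt_iff_forall_of_isRegular hk hXk]
    intro x hx
    refine lt_of_le_of_lt (mk_insert_le) ?_
    exact add_lt_of_lt hk.aleph0_le (hA x (hX hx)) (lt_of_lt_of_le one_lt_aleph0 hk.aleph0_le)
  exact absurd (hkA.trans (mk_le_mk_of_subset hsub)) (not_le.2 hlt)

end Pool.Agent.Helper91.SU
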